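import Pool.Agent.Helper15.EP.St

set_option autoImplicit false

/-!
# Project EP, module KBD: the general bound for Kloosterman sums modulo a squarefree times a modulus
-/

open Polynomial Pool.Agent.Helper15.FC Pool.Agent.Helper15.EP

namespace Pool.Agent.Helper57.EP

noncomputable section

theorem normChar {F : Type} [Field F] [Fintype F] (ν : AddChar F[X] ℂ) (x : F[X]) : ‖ν x‖ = 1 := by
  have h1 : (Fintype.card F) • x = 0 := by
    rw [nsmul_eq_mul]
    have h2 : ((Fintype.card F : ℕ) : F[X]) = 0 := by
      have h3 : ((Fintype.card F : ℕ) : F[X]) = C ((Fintype.card F : ℕ) : F) :=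
        (map_natCast (C : F →+* F[X]) _).symm
      rw [h3, FiniteField.cast_card_eq_zero, C_0]
    rw [h2, zero_mul]
  have h4 : (ν x) ^ (Fintype.card F) = 1 := by
    rw [← AddChar.map_nsmul_eq_pow, h1, AddChar.map_zero_eq_one]
  exact Complex.norm_eq_one_of_pow_eq_one h4 Fintype.card_ne_zero

theorem AC_mul_left {F : Type} [Field F] {r : F[X]} (s : F[X]) {ν : AddChar F[X] ℂ}
    (h : ν ∈ AC r) : ν ∈ AC (s * r) := by
  intro g
  have := h (s * g)
  rw [show s * r * g = r * (s * g) by ring]
  exact this

theorem AC_mul_right {F : Type} [Field F] {r : F[X]} (s : F[X]) {ν : AddChar F[X] ℂ}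
    (h : ν ∈ AC r) : ν ∈ AC (r * s) := by
  rw [mul_comm]; exact AC_mul_left s h

theorem AC_mul {F : Type} [Field F] {r : F[X]} {ν μ : AddChar F[X] ℂ}
    (h : ν ∈ AC r) (h' : μ ∈ AC r) : ν * μ ∈ AC r := by
  intro g
  rw [AddChar.mul_apply, h g, h' g, one_mul]

open scoped Classical in
/-- the trivial bound -/
theorem trivialBound (hUCT : StUCT) (F : Type) [Field F] [Fintype F] (m A t u : F[X])
    (ν1 ν2 : AddChar F[X] ℂ) (hm : m.Monic) (ht : t ≠ 0) (hu : IsCoprime u m) :
    ‖KS m A (u * t) ν1 ν2‖ ≤ qr F ^ t.natDegree * qr F ^ m.natDegree := by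
  unfold KS
  refine (norm_sum_le _ _).trans ?_
  have h1 : ∀ p ∈ (Lw F m.natDegree ×ˢ Lw F m.natDegree).filter
      (fun p => m ∣ A * p.1 * p.2 - u * t), ‖ν1 p.1 * ν2 p.2‖ = 1 := by
    intro p _
    rw [norm_mul, normChar, normChar, one_mul]
  rw [Finset.sum_congr rfl h1, Finset.sum_const, nsmul_eq_mul, mul_one]
  rw [Finset.card_filter, Finset.sum_product]
  push_cast
  have h2 : ∀ x ∈ Lw F m.natDegree,
      (∑ z ∈ Lw F m.natDegree, (if m ∣ A * x * z - u * t then (1 : ℝ) else 0)) ≤
        qr F ^ t.natDegree := by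
    intro x _
    have h3 := hUCT F m (A * x) t u hm ht hu
      ((Lw F m.natDegree).filter (fun z => m ∣ A * x * z - u * t)) (by
        intro z hz
        exact Finset.mem_filter.1 hz)
    rw [Finset.card_filter] at h3
    push_cast at h3
    exact h3
  refine (Finset.sum_le_sum h2).trans ?_
  rw [Finset.sum_const, card_Lw, nsmul_eq_mul]
  push_cast
  rw [mul_comm]

theorem Dv_one (F : Type) [Field F] [Fintype F] : Dv (1 : F[X]) = {1} := by
  ext d
  rw [mem_Dv one_ne_zero, Finset.mem_singleton]
  constructor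
  · rintro ⟨h1, h2⟩
    exact h1.eq_one_of_isUnit (isUnit_of_dvd_one h2)
  · rintro rfl
    exact ⟨monic_one, dvd_rfl⟩

theorem Dv_split (hDVM : StDVM) (F : Type) [Field F] [Fintype F] (P m : F[X]) (g : F[X] → ℝ)
    (hP : P.Monic) (hPi : Irreducible P) (hm : m.Monic) (hc : IsCoprime P m) :
    ∑ e ∈ Dv (P * m), g e = ∑ b ∈ Dv m, (g b + g (P * b)) := by
  rw [(hDVM F).1 P m g hP hm hc]
  have h1 := (hDVM F).2 P 1 (fun a => ∑ b ∈ Dv m, g (a * b)) hP hPi
  rw [pow_one] at h1
  rw [h1, Finset.sum_range_succ, Finset.sum_range_succ, Finset.sum_range_zero, zero_add,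
    pow_zero, pow_one, ← Finset.sum_add_distrib]
  refine Finset.sum_congr rfl (fun b _ => ?_)
  rw [one_mul]

open scoped Classical in
theorem hKBD (hKLP : StKLP) (hKCR : StKCR) (hUCT : StUCT) (hDVM : StDVM) : StKBD := by
  intro F _ _ m1
  have key : ∀ (n : ℕ) (m1 : F[X]), m1.natDegree = n → ∀ (m2 A t u : F[X])
      (ν1 ν2 : AddChar F[X] ℂ), m1.Monic → m2.Monic → Squarefree m1 → IsCoprime m1 m2 →
      IsCoprime m1 t → t ≠ 0 → IsCoprime u (m1 * m2) → ν1 ∈ AC (m1 * m2) → ν2 ∈ AC (m1 * m2) →
      ‖KS (m1 * m2) A (u * t) ν1 ν2‖ ≤ tau m1 * qr F ^ t.natDegree *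
        Real.sqrt (qr F) ^ m1.natDegree * qr F ^ m2.natDegree *
        ∑ d ∈ Dv m1, (if ν1 ∈ AC (m1 / d * m2) ∧ ν2 ∈ AC (m1 / d * m2) then
          Real.sqrt (qr F) ^ d.natDegree else 0) := by
    intro n
    induction n using Nat.strong_induction_on with
    | _ n ih =>
      intro m1 hn m2 A t u ν1 ν2 hm1 hm2 hsq hc12 hc1t ht hcu hν1 hν2
      by_cases h1 : m1 = 1
      · subst h1
        have htau : tau (1 : F[X]) = 1 := by
          unfold tau
          rw [Dv_one]; simp
        rw [Dv_one, Finset.sum_singleton, EuclideanDomain.div_one, if_pos ⟨hν1, hν2⟩, htau,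
          natDegree_one, pow_zero, one_mul, mul_one, mul_one]
        rw [one_mul] at hcu ⊢
        exact trivialBound hUCT F m2 A t u ν1 ν2 hm2 ht hcu
      · have hnu : ¬ IsUnit m1 := fun h => h1 (hm1.eq_one_of_isUnit h)
        obtain ⟨P, hP, hPi, m', hm'⟩ := Polynomial.exists_monic_irreducible_factor m1 hnu
        subst hm'
        have hm'M : m'.Monic := hP.of_mul_monic_left hm1
        have hsq' := squarefree_mul_iff.1 hsq
        have hcP : IsCoprime P m' := isRelPrime_iff_isCoprime.1 hsq'.1
        have hc1 : IsCoprime P m2 := hc12.of_mul_left_left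
        have hc2 : IsCoprime m' m2 := hc12.of_mul_left_right
        have hcPs : IsCoprime P (m' * m2) := hcP.mul_right hc1
        have hdeg : (P * m').natDegree = P.natDegree + m'.natDegree := hP.natDegree_mul hm'M
        have hPpos : 0 < P.natDegree := hPi.natDegree_pos
        rw [mul_assoc] at hν1 hν2 hcu
        obtain ⟨α1, α2, β1, β2, ha1, ha2, hb1, hb2, e1, e2, e3⟩ :=
          hKCR F P (m' * m2) A (u * t) ν1 ν2 hP (hm'M.mul hm2) hcPs hν1 hν2
        have hPt : ¬ P ∣ u * t := by
          intro hd
          rcases hPi.prime.dvd_or_dvd hd with h | h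
          · have h2 : IsCoprime P P := (hcu.symm.of_mul_left_left).mono dvd_rfl h
            exact hPi.not_isUnit (isCoprime_self.1 h2)
          · have h2 : IsCoprime P P := (hc1t.of_mul_left_left).mono dvd_rfl h
            exact hPi.not_isUnit (isCoprime_self.1 h2)
        have hB1 := hKLP F P A (u * t) α1 α2 hP hPi hPt ha1 ha2
        have hB2 := ih m'.natDegree (by omega) m' rfl m2 A t u β1 β2 hm'M hm2 hsq'.2.2 hc2
          (hc1t.of_mul_left_right) ht (hcu.of_mul_right_right) hb1 hb2
        have htau : tau (P * m') = 2 * tau m' := by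
          have h := Dv_split hDVM F P m' (fun _ => (1 : ℝ)) hP hPi hm'M hcP
          unfold tau
          rw [Finset.sum_const, Finset.sum_const, nsmul_eq_mul, nsmul_eq_mul] at h
          linarith
        have hs0 : 0 ≤ Real.sqrt (qr F) := Real.sqrt_nonneg _
        -- the sum
        have hsum : (if α1 = 1 ∧ α2 = 1 then Real.sqrt (qr F) ^ P.natDegree else 1) *
            ∑ d ∈ Dv m', (if β1 ∈ AC (m' / d * m2) ∧ β2 ∈ AC (m' / d * m2) then
              Real.sqrt (qr F) ^ d.natDegree else 0) ≤
            ∑ d ∈ Dv (P * m'), (if ν1 ∈ AC ((P * m') / d * m2) ∧ ν2 ∈ AC ((P * m') / d * m2) then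
              Real.sqrt (qr F) ^ d.natDegree else 0) := by
          rw [Dv_split hDVM F P m' _ hP hPi hm'M hcP, Finset.mul_sum]
          refine Finset.sum_le_sum (fun b hb => ?_)
          obtain ⟨hbM, c, hc⟩ := (mem_Dv hm'M.ne_zero).1 hb
          have hb0 : b ≠ 0 := hbM.ne_zero
          have hq1 : m' / b = c := by
            rw [hc]; exact mul_div_cancel_left₀ c hb0
          have hq2 : (P * m') / (P * b) = c := by
            rw [hc, ← mul_assoc]; exact mul_div_cancel_left₀ c (mul_ne_zero hP.ne_zero hb0)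
          have hq3 : (P * m') / b = P * c := by
            rw [hc, show P * (b * c) = b * (P * c) by ring]
            exact mul_div_cancel_left₀ _ hb0
          rw [hq1, hq2, hq3, hP.natDegree_mul hbM]
          have hn1 : (0 : ℝ) ≤ (if ν1 ∈ AC (P * c * m2) ∧ ν2 ∈ AC (P * c * m2) then
              Real.sqrt (qr F) ^ b.natDegree else 0) := by
            split_ifs
            · exact pow_nonneg hs0 _
            · exact le_rfl
          have hn2 : (0 : ℝ) ≤ (if ν1 ∈ AC (c * m2) ∧ ν2 ∈ AC (c * m2) then
              Real.sqrt (qr F) ^ (P.natDegree + b.natDegree) else 0) := by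
            split_ifs
            · exact pow_nonneg hs0 _
            · exact le_rfl
          by_cases hβ : β1 ∈ AC (c * m2) ∧ β2 ∈ AC (c * m2)
          · rw [if_pos hβ]
            by_cases hα : α1 = 1 ∧ α2 = 1
            · rw [if_pos hα]
              have h5 : ν1 ∈ AC (c * m2) ∧ ν2 ∈ AC (c * m2) := by
                rw [e1, e2, hα.1, hα.2, one_mul, one_mul]
                exact hβ
              rw [if_pos h5, pow_add]
              linarith
            · rw [if_neg hα, one_mul]
              have h5 : ν1 ∈ AC (P * c * m2) ∧ ν2 ∈ AC (P * c * m2) := by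
                rw [e1, e2]
                refine ⟨AC_mul ?_ ?_, AC_mul ?_ ?_⟩
                · rw [mul_assoc]; exact AC_mul_right _ ha1
                · rw [mul_assoc]; exact AC_mul_left _ hβ.1
                · rw [mul_assoc]; exact AC_mul_right _ ha2
                · rw [mul_assoc]; exact AC_mul_left _ hβ.2
              rw [if_pos h5]
              linarith
          · rw [if_neg hβ, mul_zero]
            linarith
        rw [mul_assoc P m' m2, e3, norm_mul, htau, hdeg, pow_add]
        have hq0 : (0 : ℝ) ≤ qr F := Nat.cast_nonneg _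
        have ht0 : 0 ≤ tau m' := by unfold tau; exact Nat.cast_nonneg _
        have hS0 : (0 : ℝ) ≤ ∑ d ∈ Dv m', (if β1 ∈ AC (m' / d * m2) ∧ β2 ∈ AC (m' / d * m2) then
              Real.sqrt (qr F) ^ d.natDegree else 0) := by
          refine Finset.sum_nonneg (fun d _ => ?_)
          split_ifs
          · exact pow_nonneg hs0 _
          · exact le_rfl
        calc ‖KS P A (u * t) α1 α2‖ * ‖KS (m' * m2) A (u * t) β1 β2‖
            ≤ (2 * Real.sqrt (qr F) ^ P.natDegree *
                (if α1 = 1 ∧ α2 = 1 then Real.sqrt (qr F) ^ P.natDegree else 1)) *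
              (tau m' * qr F ^ t.natDegree * Real.sqrt (qr F) ^ m'.natDegree *
                qr F ^ m2.natDegree *
                ∑ d ∈ Dv m', (if β1 ∈ AC (m' / d * m2) ∧ β2 ∈ AC (m' / d * m2) then
                  Real.sqrt (qr F) ^ d.natDegree else 0)) := by
              refine mul_le_mul hB1 hB2 (norm_nonneg _) ((norm_nonneg _).trans hB1)
          _ = (2 * tau m' * qr F ^ t.natDegree *
                (Real.sqrt (qr F) ^ P.natDegree * Real.sqrt (qr F) ^ m'.natDegree) *
                qr F ^ m2.natDegree) *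
              ((if α1 = 1 ∧ α2 = 1 then Real.sqrt (qr F) ^ P.natDegree else 1) *
                ∑ d ∈ Dv m', (if β1 ∈ AC (m' / d * m2) ∧ β2 ∈ AC (m' / d * m2) then
                  Real.sqrt (qr F) ^ d.natDegree else 0)) := by ring
          _ ≤ _ := by
              refine mul_le_mul_of_nonneg_left hsum ?_
              have a1 := pow_nonneg hs0 P.natDegree
              have a2 := pow_nonneg hs0 m'.natDegree
              have a3 := pow_nonneg hq0 t.natDegree
              have a4 := pow_nonneg hq0 m2.natDegree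
              positivity
  exact key m1.natDegree m1 rfl

end

end Pool.Agent.Helper57.EP
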