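import Pool.Agent.Helper68.EP.St3
import Pool.Agent.Helper4.RL.M_LGR
import Pool.Agent.Helper27.LM.M_HLW

/-!
# Project EP, module EAT: few exceptional points
-/

set_option autoImplicit false

open MeasureTheory Set Filter Topology
open scoped ENNReal RealInnerProductSpace

namespace Pool.Agent.Helper57.EP

open Pool.Agent.Helper68.EP Pool.Agent.Helper20.RG
open Pool.Agent.Helper20.RL (RQ Rich BM Fml)
open Pool.Agent.Helper68.LM (Pl BB Bd Av HL ft fm DQ)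

/-- the indicator function of a bounded measurable set -/
theorem bb_ind {E : Set Pl} (hE : BM E) : BB (E.indicator (1 : Pl → ℝ)) := by
  obtain ⟨hm, hb⟩ := hE
  refine ⟨measurable_one.indicator hm, ?_⟩
  obtain ⟨R, hR⟩ := hb.subset_closedBall (0 : Pl)
  refine ⟨max 1 R, fun x => ?_, fun x hx => ?_⟩
  · by_cases h : x ∈ E
    · rw [indicator_of_mem h]
      simp
    · rw [indicator_of_notMem h]
      simp
  · refine indicator_of_notMem (fun h => ?_) _
    have h1 := hR h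
    rw [mem_closedBall_zero_iff] at h1
    exact absurd (lt_of_le_of_lt (le_max_right 1 R) hx) (not_lt.2 h1)

theorem enorm_ind (E : Set Pl) (x : Pl) :
    ‖E.indicator (1 : Pl → ℝ) x‖ₑ = E.indicator (1 : Pl → ℝ≥0∞) x := by
  by_cases h : x ∈ E
  · rw [indicator_of_mem h, indicator_of_mem h]
    simp
  · rw [indicator_of_notMem h, indicator_of_notMem h]
    simp

theorem sq_ball (hPT : StPT) (z : Pl) (r : ℝ) : Sq z r ⊆ Metric.closedBall z (2 * r) := by
  intro y hy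
  rw [Metric.mem_closedBall, dist_eq_norm]
  have h1 := (hPT.2.2.1 (y - z)).2.2.1
  have h2 : (y - z) 0 = y 0 - z 0 := rfl
  have h3 : (y - z) 1 = y 1 - z 1 := rfl
  rw [h2, h3] at h1
  have := hy.1
  have := hy.2
  linarith

/-- a dense square makes the maximal function large -/
theorem hl_large (hPT : StPT) (hEQ : StEQ) {E : Set Pl} (hE : MeasurableSet E) {ϑ : ℝ} (hϑ : 0 < ϑ)
    {z : Pl} {b : ℤ} (h : ENNReal.ofReal (ϑ * (4 : ℝ) ^ b) < volume (E ∩ DQ3 b z)) :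
    ENNReal.ofReal ϑ < HL 4 (E.indicator (1 : Pl → ℝ)) z := by
  have h2 : (0 : ℝ) < (2 : ℝ) ^ b := by positivity
  have hsc := Pool.Agent.Helper27.LM.ball_scale (E.indicator (1 : Pl → ℝ≥0∞))
    (measurable_one.indicator hE) 4 ((2 : ℝ) ^ b) h2 z
  have h3 : volume (E ∩ DQ3 b z) ≤
      ∫⁻ y in Metric.closedBall z (4 * (2 : ℝ) ^ b), E.indicator (1 : Pl → ℝ≥0∞) y := by
    rw [lintegral_indicator_one hE, Measure.restrict_apply hE]
    refine measure_mono (inter_subset_inter_right _ ?_)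
    refine ((hEQ.2.1 b z).2).trans ((sq_ball hPT z _).trans ?_)
    refine Metric.closedBall_subset_closedBall ?_
    linarith
  have h4 : (((2 : ℝ) ^ b) ^ 2)⁻¹ * (ϑ * (4 : ℝ) ^ b) = ϑ := by
    have h5 : ((2 : ℝ) ^ b) ^ 2 = (4 : ℝ) ^ b := by
      rw [← zpow_natCast, ← zpow_mul, mul_comm, zpow_mul]
      norm_num
    have h6 : (4 : ℝ) ^ b ≠ 0 := by positivity
    rw [h5]
    field_simp
  have h7 : ENNReal.ofReal ϑ < ∫⁻ w in Metric.closedBall (0 : Pl) 4,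
      E.indicator (1 : Pl → ℝ≥0∞) (z - (2 : ℝ) ^ b • w) := by
    rw [hsc]
    calc ENNReal.ofReal ϑ
        = ENNReal.ofReal ((((2 : ℝ) ^ b) ^ 2)⁻¹) * ENNReal.ofReal (ϑ * (4 : ℝ) ^ b) := by
          rw [← ENNReal.ofReal_mul (by positivity), h4]
      _ < ENNReal.ofReal ((((2 : ℝ) ^ b) ^ 2)⁻¹) * volume (E ∩ DQ3 b z) := by
          refine (ENNReal.mul_lt_mul_iff_right ?_ ENNReal.ofReal_ne_top).2 h
          rw [Ne, ENNReal.ofReal_eq_zero, not_le]
          positivity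
      _ ≤ _ := by gcongr
  refine lt_of_lt_of_le h7 ?_
  unfold HL
  refine le_trans (le_of_eq ?_) (le_iSup _ b)
  refine lintegral_congr fun w => ?_
  rw [enorm_ind]

theorem hEAT (hPT : Pool.Agent.Helper20.RG.StPT) (hLMX : Pool.Agent.Helper20.RL.StLMX) (hEQ : StEQ) :
    StEAT := by
  obtain ⟨C0, hC0, hHL⟩ := Pool.Agent.Helper27.LM.hHLW 4 (by norm_num)
  have hLGR := Pool.Agent.Helper4.RL.hLGR hPT
  refine ⟨max C0 1, le_max_right _ _, ?_⟩
  intro E ϑ θ' hE hϑ hθ'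
  have hEm := hE.1
  set Ω : Set Pl := {z | ∃ b' : ℤ, ENNReal.ofReal (ϑ * (4 : ℝ) ^ b') < volume (E ∩ DQ3 b' z)} with hΩ
  have hvΩ : volume Ω ≤ ENNReal.ofReal (C0 / ϑ) * volume E := by
    have h1 := hHL (E.indicator (1 : Pl → ℝ)) (bb_ind hE) ϑ hϑ
    have h2 : ∫⁻ x, ‖E.indicator (1 : Pl → ℝ) x‖ₑ = volume E := by
      simp only [enorm_ind]
      exact lintegral_indicator_one hEm
    rw [h2] at h1
    refine le_trans (measure_mono ?_) h1
    rintro z ⟨b', hb'⟩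
    exact hl_large hPT hEQ hEm hϑ hb'
  -- a bound for the scales
  have hfin : volume E ≠ ⊤ := hE.2.measure_lt_top.ne
  obtain ⟨b₁, hb₁⟩ : ∃ b₁ : ℕ, (volume E).toReal ≤ ϑ * (4 : ℝ) ^ b₁ := by
    obtain ⟨n, hn⟩ := pow_unbounded_of_one_lt ((volume E).toReal / ϑ) (by norm_num : (1 : ℝ) < 4)
    refine ⟨n, ?_⟩
    rw [div_lt_iff₀ hϑ] at hn
    linarith
  have hsc : ∀ (b' : ℤ) (z : Pl), ENNReal.ofReal (ϑ * (4 : ℝ) ^ b') < volume (E ∩ DQ3 b' z) →
      b' ≤ (b₁ : ℤ) := by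
    intro b' z h
    by_contra hcon
    push Not at hcon
    have h1 : volume (E ∩ DQ3 b' z) ≤ ENNReal.ofReal (ϑ * (4 : ℝ) ^ b') := by
      refine (measure_mono inter_subset_left).trans ?_
      rw [← ENNReal.ofReal_toReal hfin]
      refine ENNReal.ofReal_le_ofReal (hb₁.trans ?_)
      have h2 : (4 : ℝ) ^ b₁ ≤ (4 : ℝ) ^ b' := by
        rw [← zpow_natCast]
        exact zpow_le_zpow_right₀ (by norm_num) hcon.le
      exact mul_le_mul_of_nonneg_left h2 hϑ.le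
    exact absurd h (not_lt.2 h1)
  set T : Set ℤ := {b | b ≤ (b₁ : ℤ)} with hT
  set P : ℤ → Set Pl := fun b => {z | volume (E ∩ DQ b z) < ENNReal.ofReal (θ' * (4 : ℝ) ^ b) ∧
    ∃ b' : ℤ, b ≤ b' ∧ ENNReal.ofReal (ϑ * (4 : ℝ) ^ b') < volume (E ∩ DQ3 b' z)} with hP
  have hcell : ∀ (k : ℤ) (y z : Pl), y ∈ P k → z ∈ DQ k y → z ∈ P k := by
    rintro k y z ⟨h1, b', hb', h2⟩ hz
    refine ⟨?_, b', hb', ?_⟩
    · rw [(hEQ.2.2.1 k k y z le_rfl hz).2]
      exact h1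
    · rw [(hEQ.2.2.1 k b' y z hb' hz).1]
      exact h2
  have key := hLMX 0 id id T P (At E ϑ θ') Ω (ENNReal.ofReal θ') monotone_id monotone_id
    ⟨(b₁ : ℤ), fun b hb => hb⟩ ?_ ?_ ?_
  · calc volume (At E ϑ θ') ≤ ENNReal.ofReal θ' * volume (Ω ∩ ⋃ k ∈ T, P k) := key
      _ ≤ ENNReal.ofReal θ' * volume Ω := by
          gcongr
          exact inter_subset_left
      _ ≤ ENNReal.ofReal θ' * (ENNReal.ofReal (C0 / ϑ) * volume E) := by gcongr
      _ = ENNReal.ofReal (C0 * θ' / ϑ) * volume E := by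
          rw [← mul_assoc, ← ENNReal.ofReal_mul hθ'.le]
          congr 2
          ring
      _ ≤ ENNReal.ofReal (max C0 1 * θ' / ϑ) * volume E := by
          gcongr
          exact le_max_left _ _
  · intro k _ y hy z hz
    refine hcell k y z hy ?_
    rw [(hEQ.1 k y).2.2.2]
    exact hz
  · rintro z ⟨_, b, b', hbb, h1, h2⟩
    rw [mem_iUnion₂]
    exact ⟨b, le_trans hbb (hsc b' z h1), h2, b', hbb, h1⟩
  · intro k _ y hy
    have hDQ : RQ 0 (id k) (id k) y = DQ k y := (hEQ.1 k y).2.2.2.symm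
    have h1 : Ω ∩ RQ 0 (id k) (id k) y = RQ 0 (id k) (id k) y := by
      refine inter_eq_right.2 ?_
      intro z hz
      rw [hDQ] at hz
      obtain ⟨_, b', _, h2⟩ := hcell k y z hy hz
      exact ⟨b', h2⟩
    rw [h1, (hLGR.1 0 (id k) (id k) y).2.1, hDQ, ← ENNReal.ofReal_mul hθ'.le]
    have h4 : (2 : ℝ) ^ (id k + id k) = (4 : ℝ) ^ k := by
      rw [id, ← two_mul, zpow_mul]
      norm_num
    rw [h4]
    refine le_trans (measure_mono ?_) hy.1.le
    rintro z ⟨⟨hz, _⟩, hz2⟩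
    exact ⟨hz.1, hz2⟩

end Pool.Agent.Helper57.EP
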