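import Pool.Agent.Helper68.EP.St5

/-!
# Project EP, module XP: pigeonhole
-/

set_option autoImplicit false

open MeasureTheory Set Filter Topology
open scoped ENNReal RealInnerProductSpace

namespace Pool.Agent.Helper57.EP

open Pool.Agent.Helper68.EP Pool.Agent.Helper20.RG
open Pool.Agent.Helper20.RL (RQ Rich BM Fml)

theorem hXP : StXP := by
  intro S t c e₁ hc he ht hsum
  by_contra hcon
  push Not at hcon
  set q : ℝ := (2 : ℝ) ^ (-e₁) with hq
  have hq0 : 0 < q := by positivity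
  have hq1 : q < 1 := by
    rw [hq]
    exact Real.rpow_lt_one_of_one_lt_of_neg (by norm_num) (by linarith)
  -- the level of a pair
  have hlev : ∀ h ∈ S, 0 < t h → ∃ i : ℕ, (2 : ℝ) ^ (-((i : ℤ) + 1)) < t h ∧ t h ≤ (2 : ℝ) ^ (-(i : ℤ)) := by
    intro h hh hpos
    obtain ⟨n, h1, h2⟩ := exists_nat_pow_near_of_lt_one hpos (ht h hh).2 (by norm_num : (0 : ℝ) < 1 / 2)
      (by norm_num)
    refine ⟨n, ?_, ?_⟩
    · have h3 : (2 : ℝ) ^ (-((n : ℤ) + 1)) = (1 / 2) ^ (n + 1) := by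
        rw [zpow_neg, one_div, inv_pow]
        norm_cast
      rw [h3]
      exact h1
    · have h3 : (2 : ℝ) ^ (-(n : ℤ)) = (1 / 2) ^ n := by
        rw [zpow_neg, one_div, inv_pow]
        norm_cast
      rw [h3]
      exact h2
  classical
  choose! lev hlev1 using hlev
  set N : ℕ := S.sup lev + 1 with hN
  set Fl : ℕ → Finset (ℕ × ℕ) := fun i =>
    S.filter (fun h => (2 : ℝ) ^ (-((i : ℤ) + 1)) < t h ∧ t h ≤ (2 : ℝ) ^ (-(i : ℤ))) with hFl
  have h1 : ∑ h ∈ S, t h ≤ ∑ i ∈ Finset.range N, ∑ h ∈ Fl i, t h := by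
    calc ∑ h ∈ S, t h = ∑ h ∈ S.filter (fun h => 0 < t h), t h := by
          symm
          refine Finset.sum_subset (Finset.filter_subset _ _) ?_
          intro h hh hn
          have : ¬ 0 < t h := fun h0 => hn (Finset.mem_filter.2 ⟨hh, h0⟩)
          exact le_antisymm (not_lt.1 this) (ht h hh).1
      _ = ∑ i ∈ Finset.range N, ∑ h ∈ (S.filter (fun h => 0 < t h)).filter (fun h => lev h = i), t h := by
          symm
          refine Finset.sum_fiberwise_of_maps_to ?_ _
          intro h hh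
          rw [Finset.mem_range, hN]
          have := Finset.le_sup (f := lev) (Finset.mem_filter.1 hh).1
          omega
      _ ≤ ∑ i ∈ Finset.range N, ∑ h ∈ Fl i, t h := by
          refine Finset.sum_le_sum fun i _ => ?_
          refine Finset.sum_le_sum_of_subset_of_nonneg ?_ ?_
          · intro h hh
            rw [Finset.mem_filter, Finset.mem_filter] at hh
            have := hlev1 h hh.1.1 hh.1.2
            rw [hh.2] at this
            exact Finset.mem_filter.2 ⟨hh.1.1, this⟩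
          · intro h hh _
            exact (ht h (Finset.mem_filter.1 hh).1).1
  have h2 : ∀ i ∈ Finset.range N, ∑ h ∈ Fl i, t h < c * (1 - q) * q ^ i := by
    intro i _
    have h3 : ∑ h ∈ Fl i, t h ≤ (Fl i).card * (2 : ℝ) ^ (-(i : ℤ)) := by
      rw [← nsmul_eq_mul]
      exact Finset.sum_le_card_nsmul _ _ _ fun h hh => (Finset.mem_filter.1 hh).2.2
    have h4 := hcon i
    have h5 : (0 : ℝ) < (2 : ℝ) ^ (-(i : ℤ)) := by positivity
    have h6 : (2 : ℝ) ^ ((1 - e₁) * (i : ℝ)) * (2 : ℝ) ^ (-(i : ℤ)) = q ^ i := by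
      rw [← Real.rpow_intCast 2 (-(i : ℤ)), ← Real.rpow_add (by norm_num : (0 : ℝ) < 2), hq,
        ← Real.rpow_natCast, ← Real.rpow_mul (by norm_num : (0 : ℝ) ≤ 2)]
      congr 1
      push_cast
      ring
    calc ∑ h ∈ Fl i, t h ≤ (Fl i).card * (2 : ℝ) ^ (-(i : ℤ)) := h3
      _ < (c * (1 - q) * (2 : ℝ) ^ ((1 - e₁) * (i : ℝ))) * (2 : ℝ) ^ (-(i : ℤ)) :=
          mul_lt_mul_of_pos_right h4 h5
      _ = c * (1 - q) * q ^ i := by rw [mul_assoc, h6]
  have h7 : ∑ i ∈ Finset.range N, ∑ h ∈ Fl i, t h < ∑ i ∈ Finset.range N, c * (1 - q) * q ^ i :=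
    Finset.sum_lt_sum_of_nonempty ⟨0, Finset.mem_range.2 (by omega)⟩ h2
  have h8 : ∑ i ∈ Finset.range N, c * (1 - q) * q ^ i ≤ c := by
    rw [← Finset.mul_sum]
    have h9 : (1 - q) * ∑ i ∈ Finset.range N, q ^ i ≤ 1 := by
      have h10 := mul_neg_geom_sum q N
      rw [h10]
      have : 0 ≤ q ^ N := by positivity
      linarith
    calc c * (1 - q) * ∑ i ∈ Finset.range N, q ^ i
        = c * ((1 - q) * ∑ i ∈ Finset.range N, q ^ i) := by ring
      _ ≤ c * 1 := mul_le_mul_of_nonneg_left h9 hc.le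
      _ = c := mul_one c
  linarith

end Pool.Agent.Helper57.EP
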